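import Mathlib

set_option autoImplicit false

namespace Pool.Agent.Results.MP_405a2c_gt.Index2

open Set Filter Topology Pointwise

variable {G : Type} [AddCommGroup G]

/-- group ideals (additive notation) -/
def GroupIdeal (I : Set (Set G)) : Prop :=
  (∀ A ∈ I, ∀ B ∈ I, A ∪ B ∈ I) ∧ (∀ A ∈ I, ∀ B, B ⊆ A → B ∈ I) ∧ univ ∉ I ∧
    (∀ A : Set G, A.Finite → A ∈ I) ∧ ∀ A ∈ I, ∀ B ∈ I, A - B ∈ I

/-- `E_A[S]` -/
def ball (A S : Set G) : Set G := {y | ∃ x ∈ S, (∃ a ∈ A, y = a + x) ∨ y = x}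

/-- bounded sets of the ballean -/
def Bdd (I : Set (Set G)) (B : Set G) : Prop := ∃ A ∈ I, ∃ x, B ⊆ ball A {x}

/-- normality of the ballean of the group ideal `I` -/
def Normal (I : Set (Set G)) : Prop :=
  ∀ P Q : Set G, (∀ A ∈ I, Bdd I (ball A P ∩ ball A Q)) →
    ∃ U V : Set G, (∀ A ∈ I, Bdd I (ball A P \ U)) ∧ (∀ A ∈ I, Bdd I (ball A Q \ V)) ∧ Disjoint U V

/-- `I` has a linearly ordered base -/
def LinBase (I : Set (Set G)) : Prop := ∃ B ⊆ I, IsChain (· ⊆ ·) B ∧ ∀ A ∈ I, ∃ C ∈ B, A ⊆ C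

abbrev K := ℕ → ZMod 2

def H : AddSubgroup K where
  carrier := {x | ∀ᶠ n in hyperfilter ℕ, x n = 0}
  zero_mem' := Eventually.of_forall fun _ => rfl
  add_mem' := fun ha hb => (ha.and hb).mono fun n h => by simp [h.1, h.2]
  neg_mem' := fun ha => ha.mono fun n h => by simp [h]

theorem sub_mem_H {x y : K} (hx : x ∉ H) (hy : y ∉ H) : x - y ∈ H :=
  ((Ultrafilter.eventually_not.2 hx).and (Ultrafilter.eventually_not.2 hy)).mono fun n h => by
    have : ∀ a b : ZMod 2, ¬ a = 0 → ¬ b = 0 → a - b = 0 := by decide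
    exact this _ _ h.1 h.2

def tr (x : K) (c : ZMod 2) (N : ℕ) : K := fun n => if n < N then x n else c

theorem tr_tendsto (x : K) (c : ZMod 2) : Tendsto (tr x c) atTop (𝓝 x) :=
  tendsto_pi_nhds.2 fun n => tendsto_const_nhds.congr' ((eventually_gt_atTop n).mono fun N h => by simp [tr, h])

theorem tr_ev (x : K) (c : ZMod 2) (N : ℕ) : ∀ᶠ n in hyperfilter ℕ, tr x c N n = c :=
  ((eventually_ge_atTop N).filter_mono Nat.hyperfilter_le_atTop).mono fun n h => by simp [tr, not_lt.2 h]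

theorem tr0 (x : K) (N : ℕ) : tr x 0 N ∈ H := tr_ev x 0 N

theorem tr1 (x : K) (N : ℕ) : tr x 1 N ∉ H := fun h => by
  obtain ⟨n, h1, h2⟩ := ((tr_ev x 1 N).and h).exists
  exact zero_ne_one (h2.symm.trans h1)

theorem one_not : (1 : K) ∉ H := fun h => by
  obtain ⟨n, h⟩ := Eventually.exists h
  simp at h

def I : Set (Set H) := {A | closure (((↑) : H → K) '' A) ⊆ H}

theorem I_mono {A B : Set H} (hA : A ∈ I) (h : B ⊆ A) : B ∈ I := (closure_mono (image_mono h)).trans hA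

theorem I_fin {A : Set H} (hA : A.Finite) : A ∈ I := by
  change closure _ ⊆ _
  rw [(hA.image _).isClosed.closure_eq]
  rintro _ ⟨x, -, rfl⟩
  exact x.2

theorem I_union {A B : Set H} (hA : A ∈ I) (hB : B ∈ I) : A ∪ B ∈ I := by
  change closure _ ⊆ _
  rw [image_union, closure_union]
  exact union_subset hA hB

theorem I_sub {A B : Set H} (hA : A ∈ I) (hB : B ∈ I) : A - B ∈ I := by
  have h1 : IsClosed (closure (((↑) : H → K) '' A) - closure (((↑) : H → K) '' B)) := by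
    rw [← image2_sub, ← image_prod]
    exact ((isClosed_closure.isCompact.prod isClosed_closure.isCompact).image continuous_sub).isClosed
  refine (closure_minimal ?_ h1).trans ?_
  · rintro _ ⟨_, ⟨a, ha, b, hb, rfl⟩, rfl⟩
    exact ⟨a, subset_closure ⟨a, ha, rfl⟩, b, subset_closure ⟨b, hb, rfl⟩, rfl⟩
  · rintro _ ⟨a, ha, b, hb, rfl⟩
    exact H.sub_mem (hA ha) (hB hb)

theorem I_ball {A B : Set H} (hA : A ∈ I) (hB : B ∈ I) : ball A B ∈ I := by
  refine I_mono (I_union (I_sub hA (I_sub (I_fin (finite_singleton 0)) hB)) hB) ?_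
  rintro y ⟨x, hx, ⟨a, ha, rfl⟩ | rfl⟩
  · exact Or.inl ⟨a, ha, _, ⟨0, rfl, x, hx, rfl⟩, by simp⟩
  · exact Or.inr hx

theorem bdd_iff {B : Set H} : Bdd I B ↔ B ∈ I :=
  ⟨fun ⟨_, hA, _, h⟩ => I_mono (I_ball hA (I_fin (finite_singleton _))) h,
    fun h => ⟨B, h, 0, fun y hy => ⟨0, rfl, Or.inl ⟨y, hy, by simp⟩⟩⟩⟩

theorem seq {A : Set H} (hA : A ∉ I) : ∃ ξ ∉ H, ∃ a : ℕ → H, (∀ n, a n ∈ A) ∧
    Tendsto (fun n => (a n : K)) atTop (𝓝 ξ) := by
  obtain ⟨ξ, h1, h2⟩ := not_subset.1 hA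
  obtain ⟨x, hx, hx'⟩ := mem_closure_iff_seq_limit.1 h1
  choose a ha ha' using hx
  exact ⟨ξ, h2, a, ha, by simpa only [ha'] using hx'⟩

theorem not_mem_I {A : Set H} {ξ : K} (hξ : ξ ∉ H) {a : ℕ → H} (ha : ∀ n, a n ∈ A)
    (h : Tendsto (fun n => (a n : K)) atTop (𝓝 ξ)) : A ∉ I := fun hA =>
  hξ (hA (mem_closure_of_tendsto h (Eventually.of_forall fun n => ⟨_, ha n, rfl⟩)))

theorem result : ∃ (G : Type) (_ : AddCommGroup G) (I : Set (Set G)),
    GroupIdeal I ∧ Normal I ∧ ¬ LinBase I := by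
  let a₀ : ℕ → H := fun n => ⟨tr 1 0 n, tr0 1 n⟩
  refine ⟨H, inferInstance, I, ⟨fun _ h _ h' => I_union h h', fun _ h _ h' => I_mono h h',
    not_mem_I one_not (a := a₀) (fun _ => mem_univ _) (tr_tendsto 1 0), fun _ => I_fin,
    fun _ h _ h' => I_sub h h'⟩, fun P Q h => ?_, ?_⟩
  · simp only [bdd_iff] at h ⊢
    by_cases hP : P ∈ I
    · exact ⟨∅, univ, fun A hA => by simpa using I_ball hA hP, fun A _ => by simpa using I_fin finite_empty,
        by simp⟩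
    by_cases hQ : Q ∈ I
    · exact ⟨univ, ∅, fun A _ => by simpa using I_fin finite_empty, fun A hA => by simpa using I_ball hA hQ,
        by simp⟩
    obtain ⟨ξ, hξ, a, ha, ha'⟩ := seq hP
    obtain ⟨η, hη, b, hb, hb'⟩ := seq hQ
    refine absurd (h (range fun n => a n - b n) ?_) (not_mem_I hξ (fun n => ⟨⟨_, ha n, Or.inr rfl⟩,
      _, hb n, Or.inl ⟨_, ⟨n, rfl⟩, by simp⟩⟩) ha')
    refine (closure_minimal ?_ (ha'.sub hb').isCompact_insert_range.isClosed).trans ?_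
    · rintro _ ⟨_, ⟨n, rfl⟩, rfl⟩
      exact Or.inr ⟨n, rfl⟩
    · rintro _ (rfl | ⟨n, rfl⟩)
      · exact sub_mem_H hξ hη
      · exact (a n - b n).2
  rintro ⟨B, hB, hc, hB'⟩
  choose C hC hC' using fun n => hB' {a₀ n} (I_fin (finite_singleton _))
  have h1 : ∀ x : H, ∃ n, x ∈ C n := fun x => by
    obtain ⟨D, hD, hx⟩ := hB' {x} (I_fin (finite_singleton _))
    by_contra h
    push Not at h
    refine not_mem_I one_not (a := a₀) (fun n => ?_) (tr_tendsto 1 0) (hB hD)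
    rcases hc.total hD (hC n) with h' | h'
    · exact absurd (h' (hx rfl)) (h n)
    · exact h' (hC' n rfl)
  let F : ℕ × Bool → Set K := fun p => (fun x => x - if p.2 then 1 else 0) ⁻¹' closure (((↑) : H → K) '' C p.1)
  obtain ⟨⟨n, c⟩, x, hx⟩ := nonempty_interior_of_iUnion_of_closed (f := F)
    (fun p => isClosed_closure.preimage (by fun_prop)) (eq_univ_of_forall fun x => by
      by_cases hx : x ∈ H
      · obtain ⟨n, hn⟩ := h1 ⟨x, hx⟩
        exact mem_iUnion.2 ⟨(n, false), subset_closure ⟨_, hn, by simp⟩⟩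
      · obtain ⟨n, hn⟩ := h1 ⟨_, sub_mem_H hx one_not⟩
        exact mem_iUnion.2 ⟨(n, true), subset_closure ⟨_, hn, by simp⟩⟩)
  rw [mem_interior_iff_mem_nhds] at hx
  obtain ⟨N, h2⟩ := ((tr_tendsto x 0).eventually_mem hx).exists
  obtain ⟨M, h3⟩ := ((tr_tendsto x 1).eventually_mem hx).exists
  have := H.sub_mem (hB (hC n) h3) (H.sub_mem (hB (hC n) h2) (tr0 x N))
  exact tr1 x M (by simpa using this)

end Pool.Agent.Results.MP_405a2c_gt.Index2
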